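import Pool.Agent.W743.HP.Stm

/-!
Project HP (helper743), problem MP_8f331d_an: the branch of radial solutions.
-/

set_option autoImplicit false

open Set Filter Topology

namespace Pool.Agent.W922.HP

open Pool.Agent.W743.HP

theorem br (hR : S_REG) (h0 : S_NUM0) (h4 : S_NUM4) (h8 : S_NUM8) (hL : S_LARGE) : S_BR := by
  obtain ⟨hR1, hR2⟩ := hR
  obtain ⟨h0a, h0b⟩ := h0
  obtain ⟨h4a, ⟨x1, hx1, h4b1, h4b2⟩, ⟨x2, hx2, h4c1, h4c2⟩⟩ := h4
  have hxlh : xl < xh := by norm_num [xl, xh]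
  have hxl0 : -1 < xl := by norm_num [xl]
  have hxh1 : xh < 1 := by norm_num [xh]
  have haL0 : 0 ≤ aL := by norm_num [aL]
  have habL : aL ≤ bL := by norm_num [aL, bL]
  have habs : ∀ x ∈ Icc xl xh, |x| < 1 := by
    intro x hx
    rw [abs_lt]
    exact ⟨lt_of_lt_of_le hxl0 hx.1, lt_of_le_of_lt hx.2 hxh1⟩
  have hpos : ∀ α ∈ Icc aL bL, 0 ≤ α := fun α hα => haL0.trans hα.1
  -- strict monotonicity
  have hanti0 : ∀ α ∈ Icc aL bL, StrictAntiOn (G1 0 α) (Icc xl xh) := by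
    intro α hα
    refine strictAntiOn_of_hasDerivWithinAt_neg (f' := G2 0 α) (convex_Icc _ _) ?_ ?_ ?_
    · intro x hx
      exact ((hR1 0 α x (hpos α hα) (habs x hx)).2.2.2.2.2.1).continuousAt.continuousWithinAt
    · intro x hx
      have hx' : x ∈ Icc xl xh := interior_subset hx
      exact ((hR1 0 α x (hpos α hα) (habs x hx')).2.2.2.2.2.1).hasDerivWithinAt
    · intro x hx
      have hx' : x ∈ Icc xl xh := interior_subset hx
      exact (h0a α hα x hx').2
  have hanti4 : ∀ α ∈ Icc aL bL, StrictAntiOn (G 4 α) (Icc xl xh) := by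
    intro α hα
    refine strictAntiOn_of_hasDerivWithinAt_neg (f' := G1 4 α) (convex_Icc _ _) ?_ ?_ ?_
    · intro x hx
      exact ((hR1 4 α x (hpos α hα) (habs x hx)).2.2.2.2.1).continuousAt.continuousWithinAt
    · intro x hx
      have hx' : x ∈ Icc xl xh := interior_subset hx
      exact ((hR1 4 α x (hpos α hα) (habs x hx')).2.2.2.2.1).hasDerivWithinAt
    · intro x hx
      have hx' : x ∈ Icc xl xh := interior_subset hx
      exact h4a α hα x hx'
  -- the zero
  have hzero : ∀ α ∈ Icc aL bL, ∃ x ∈ Icc xl xh, G1 0 α x = 0 := by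
    intro α hα
    have hc : ContinuousOn (G1 0 α) (Icc xl xh) := fun x hx =>
      ((hR1 0 α x (hpos α hα) (habs x hx)).2.2.2.2.2.1).continuousAt.continuousWithinAt
    have := intermediate_value_Icc' hxlh.le hc
    obtain ⟨x, hx, hx0⟩ := this ⟨(h0b α hα).2.le, (h0b α hα).1.le⟩
    exact ⟨x, hx, hx0⟩
  classical
  let x : ℝ → ℝ := fun α => if h : α ∈ Icc aL bL then (hzero α h).choose else 0
  have hx : ∀ α ∈ Icc aL bL, x α ∈ Icc xl xh ∧ G1 0 α (x α) = 0 := by
    intro α hα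
    have : x α = (hzero α hα).choose := dif_pos hα
    rw [this]
    exact (hzero α hα).choose_spec
  -- comparison with the zero
  have hlt : ∀ α ∈ Icc aL bL, ∀ t ∈ Icc xl xh, 0 < G1 0 α t → t < x α := by
    intro α hα t ht hp
    by_contra hcon
    have hle := (hanti0 α hα).antitoneOn (hx α hα).1 ht (not_lt.1 hcon)
    rw [(hx α hα).2] at hle
    exact absurd hp (not_lt.2 hle)
  have hgt : ∀ α ∈ Icc aL bL, ∀ t ∈ Icc xl xh, G1 0 α t < 0 → x α < t := by
    intro α hα t ht hp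
    by_contra hcon
    have hle := (hanti0 α hα).antitoneOn ht (hx α hα).1 (not_lt.1 hcon)
    rw [(hx α hα).2] at hle
    exact absurd hp (not_lt.2 hle)
  refine ⟨x, ?_, ?_, ?_, ?_⟩
  · -- continuity
    intro α₀ hα₀
    have hxl := hlt α₀ hα₀ xl ⟨le_rfl, hxlh.le⟩ (h0b α₀ hα₀).1
    have hxh := hgt α₀ hα₀ xh ⟨hxlh.le, le_rfl⟩ (h0b α₀ hα₀).2
    have hcont : ∀ t ∈ Icc xl xh, ContinuousWithinAt (fun α => G1 0 α t) (Icc aL bL) α₀ := by
      intro t ht
      have h1 := (hR2 0).2 (α₀, t) ⟨hpos α₀ hα₀, lt_of_lt_of_le hxl0 ht.1,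
        lt_of_le_of_lt ht.2 hxh1⟩
      have h2 : ContinuousWithinAt (fun α : ℝ => (α, t)) (Icc aL bL) α₀ :=
        (by fun_prop : Continuous (fun α : ℝ => (α, t))).continuousWithinAt
      have hm : MapsTo (fun α : ℝ => (α, t)) (Icc aL bL)
          ((Ici 0 ×ˢ Ioo (-1) 1 : Set (ℝ × ℝ))) := by
        intro α hα
        exact ⟨hpos α hα, lt_of_lt_of_le hxl0 ht.1, lt_of_le_of_lt ht.2 hxh1⟩
      exact ContinuousWithinAt.comp (f := fun α : ℝ => (α, t)) (x := α₀)
        (t := (Ici 0 ×ˢ Ioo (-1) 1 : Set (ℝ × ℝ)))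
        (g := fun z : ℝ × ℝ => G1 0 z.1 z.2) h1 h2 hm
    rw [ContinuousWithinAt, tendsto_order]
    constructor
    · intro c hc
      -- a point between max c xl and x α₀
      obtain ⟨t, ht1, ht2⟩ := exists_between (max_lt hc hxl)
      have ht : t ∈ Icc xl xh := ⟨((le_max_right _ _).trans_lt ht1).le, (ht2.trans hxh).le⟩
      have hp : 0 < G1 0 α₀ t := by
        have := hanti0 α₀ hα₀ ht (hx α₀ hα₀).1 ht2
        rwa [(hx α₀ hα₀).2] at this
      have hev := (hcont t ht).eventually (lt_mem_nhds hp)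
      filter_upwards [hev, self_mem_nhdsWithin] with α h1 h2
      exact ((le_max_left _ _).trans_lt ht1).trans (hlt α h2 t ht h1)
    · intro c hc
      obtain ⟨t, ht1, ht2⟩ := exists_between (lt_min hc hxh)
      have ht : t ∈ Icc xl xh := ⟨(hxl.trans ht1).le, (ht2.trans_le (min_le_right _ _)).le⟩
      have hp : G1 0 α₀ t < 0 := by
        have := hanti0 α₀ hα₀ (hx α₀ hα₀).1 ht ht1
        rwa [(hx α₀ hα₀).2] at this
      have hev := (hcont t ht).eventually (gt_mem_nhds hp)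
      filter_upwards [hev, self_mem_nhdsWithin] with α h1 h2
      exact (hgt α h2 t ht h1).trans (ht2.trans_le (min_le_left _ _))
  · intro α hα
    have hxα := (hx α hα).1
    refine ⟨hxα, (hx α hα).2, (h0a α hα _ hxα).1, (h0a α hα _ hxα).2, h4a α hα _ hxα, ?_⟩
    intro n hn
    rcases Nat.lt_or_ge n 8 with h | h
    · exact h8 α hα _ hxα n (Finset.mem_Icc.2 ⟨hn, by omega⟩)
    · exact hL α hα _ hxα (4 * n) (by omega)
  · have hα : aL ∈ Icc aL bL := ⟨le_rfl, habL⟩
    have h := hlt aL hα x1 hx1 h4b1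
    exact (hanti4 aL hα hx1 (hx aL hα).1 h).trans h4b2
  · have hα : bL ∈ Icc aL bL := ⟨habL, le_rfl⟩
    have h := hgt bL hα x2 hx2 h4c1
    exact h4c2.trans (hanti4 bL hα (hx bL hα).1 hx2 h)

end Pool.Agent.W922.HP
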